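import Pool.Agent.Helper68_Leo4.Basic
import Pool.Agent.Helper60_Leo3.Tools

/-!
Squad leo4, module IDL: an ideal whose cube is principal.
-/

set_option autoImplicit false

open NumberField IsDedekindDomain Module
open Pool.Agent.Leo3

namespace Pool.Agent.Leo4.H43

set_option linter.unusedSimpArgs false

/-! ### Generalities -/

theorem quad_span {k K : Type} [Field k] [Field K] [Algebra k K] (hK : finrank k K = 2) {s : K}
    (hs : ∀ x : k, algebraMap k K x ≠ s) (z : K) :
    ∃ a b : k, z = algebraMap k K a + algebraMap k K b * s := by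
  have hfin : FiniteDimensional k K := FiniteDimensional.of_finrank_eq_succ hK
  have hli : LinearIndependent k ![(1 : K), s] := by
    rw [LinearIndependent.pair_iff]
    intro x t hst
    have hst' : algebraMap k K x + algebraMap k K t * s = 0 := by
      simpa [Algebra.smul_def] using hst
    by_cases ht : t = 0
    · subst ht
      rw [map_zero, zero_mul, add_zero] at hst'
      exact ⟨(map_eq_zero (algebraMap k K)).1 hst', rfl⟩
    · exfalso
      have ht' : algebraMap k K t ≠ 0 := fun h => ht ((map_eq_zero (algebraMap k K)).1 h)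
      refine hs (-x / t) ?_
      rw [map_div₀, map_neg]
      field_simp
      linear_combination -hst'
  have hspan : ⊤ ≤ Submodule.span k (Set.range ![(1 : K), s]) := by
    rw [hli.span_eq_top_of_card_eq_finrank (by simp [hK])]
  have hz : z ∈ Submodule.span k (Set.range ![(1 : K), s]) := hspan trivial
  simp only [Matrix.range_cons, Matrix.range_empty, Set.union_empty] at hz
  rw [Set.singleton_union, Submodule.mem_span_pair] at hz
  obtain ⟨a, b, hab⟩ := hz
  exact ⟨a, b, by rw [← hab]; simp [Algebra.smul_def]⟩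

section coe

set_option linter.unusedSectionVars false

variable {F : Type} [Field F] [NumberField F]

theorem cadd (x y : 𝓞 F) : ((x + y : 𝓞 F) : F) = (x : F) + (y : F) := rfl

theorem csub (x y : 𝓞 F) : ((x - y : 𝓞 F) : F) = (x : F) - (y : F) := rfl

theorem cmul (x y : 𝓞 F) : ((x * y : 𝓞 F) : F) = (x : F) * (y : F) := rfl

theorem cneg (x : 𝓞 F) : ((-x : 𝓞 F) : F) = -(x : F) := rfl

theorem cpow (x : 𝓞 F) (n : ℕ) : ((x ^ n : 𝓞 F) : F) = (x : F) ^ n :=
  map_pow (algebraMap (𝓞 F) F) x n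

theorem czero : ((0 : 𝓞 F) : F) = 0 := rfl

theorem cone : ((1 : 𝓞 F) : F) = 1 := rfl

theorem oext {x y : 𝓞 F} (h : (x : F) = (y : F)) : x = y := RingOfIntegers.ext h

end coe

/-- elements of `k` are fractions of elements of `O` -/
theorem exists_frac {k : Type} [Field k] [NumberField k] {f : k} (hk : finrank ℚ k = 2)
    (hf : f ^ 2 = f + 1) (x : k) : ∃ a b : O, b ≠ 0 ∧ ev f b * x = ev f a := by
  have hr : ∀ y : ℚ, (y : k) ≠ f := by
    intro y hy
    have h1 : ev f (⟨-y.num, y.den⟩ : O) = 0 := by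
      simp only [ev]
      rw [← hy]
      push_cast
      have h2 : (y : k) * (y.den : k) = (y.num : k) := by
        have := Rat.mul_den_eq_num y
        exact_mod_cast congrArg (fun t : ℚ => (t : k)) this
      linear_combination h2
    have h3 := ev_inj hf (h1.trans (ev_zero f).symm)
    have h4 : ((y.den : ℕ) : ℤ) = 0 := congrArg QuadraticAlgebra.im h3
    have := y.den_pos
    omega
  obtain ⟨p, q, hpq⟩ := H60.quad_span hk hr x
  refine ⟨⟨p.num * q.den, q.num * p.den⟩, ((p.den * q.den : ℤ) : O), ?_, ?_⟩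
  · intro h
    have h1 := congrArg nm h
    rw [nm_intCast, nm_zero] at h1
    have h2 : (p.den * q.den : ℤ) ≠ 0 := by
      have := p.den_pos
      have := q.den_pos
      positivity
    exact h2 (pow_eq_zero_iff two_ne_zero |>.1 h1)
  · rw [ev_intCast, hpq]
    simp only [ev]
    push_cast
    have h2 : (p : k) * (p.den : k) = (p.num : k) := by
      exact_mod_cast congrArg (fun t : ℚ => (t : k)) (Rat.mul_den_eq_num p)
    have h3 : (q : k) * (q.den : k) = (q.num : k) := by
      exact_mod_cast congrArg (fun t : ℚ => (t : k)) (Rat.mul_den_eq_num q)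
    linear_combination (q.den : k) * h2 + (p.den : k) * f * h3

theorem exists_iota (k K : Type) [Field k] [Field K] [NumberField K] [Algebra k K] {f : k}
    (hf : f ^ 2 = f + 1) :
    ∃ ι : O →+* 𝓞 K, ∀ x : O, ((ι x : 𝓞 K) : K) = algebraMap k K (ev f x) := by
  have hF : (algebraMap k K f) ^ 2 = algebraMap k K f + 1 := by
    rw [← map_pow, hf, map_add, map_one]
  have hint : IsIntegral ℤ (algebraMap k K f) := by
    refine ⟨Polynomial.X ^ 2 - (Polynomial.X + 1), Polynomial.monic_X_pow_sub ?_, ?_⟩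
    · compute_degree
      norm_num
    · rw [← Polynomial.aeval_def]
      simp only [map_sub, map_pow, map_add, Polynomial.aeval_X, map_one]
      rw [hF, sub_self]
  obtain ⟨fO, hfO⟩ : ∃ y : 𝓞 K, (y : K) = algebraMap k K f := ⟨⟨_, hint⟩, rfl⟩
  have hfO2 : fO ^ 2 = fO + 1 := by
    apply oext
    rw [cpow, cadd, cone, hfO, hF]
  refine ⟨evHom fO hfO2, fun x => ?_⟩
  rw [evHom_apply, map_ev (algebraMap k K) f x]
  have h1 := map_ev (algebraMap (𝓞 K) K) fO x
  rw [show (algebraMap (𝓞 K) K) fO = algebraMap k K f from hfO] at h1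
  exact h1

theorem ideal_pow_inj {R : Type} [CommRing R] [IsDedekindDomain R] {I J : Ideal R} (hI : I ≠ ⊥)
    (hJ : J ≠ ⊥) (h : I ^ 3 = J ^ 3) : I = J := by
  classical
  have h1 := congrArg UniqueFactorizationMonoid.normalizedFactors h
  rw [UniqueFactorizationMonoid.normalizedFactors_pow,
    UniqueFactorizationMonoid.normalizedFactors_pow] at h1
  have h2 : UniqueFactorizationMonoid.normalizedFactors I =
      UniqueFactorizationMonoid.normalizedFactors J := by
    ext p
    have := congrArg (Multiset.count p) h1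
    rw [Multiset.count_nsmul, Multiset.count_nsmul] at this
    omega
  rw [← Ideal.prod_normalizedFactors_eq_self hI, h2, Ideal.prod_normalizedFactors_eq_self hJ]

theorem val_cube {K : Type} [Field K] [NumberField K] (q : HeightOneSpectrum (𝓞 K))
    {I : Ideal (𝓞 K)} {b : 𝓞 K} (hb : I ^ 3 = Ideal.span {b}) (hb0 : b ≠ 0) :
    ∃ n : ℕ, q.valuation K (b : K) = WithZero.exp (-((3 * n : ℕ) : ℤ)) := by
  classical
  have hI : I ≠ 0 := by
    intro h
    rw [h, zero_pow three_ne_zero] at hb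
    exact hb0 (Ideal.span_singleton_eq_bot.1 hb.symm)
  refine ⟨(Associates.mk q.asIdeal).count (Associates.mk I).factors, ?_⟩
  rw [show (b : K) = algebraMap (𝓞 K) K b from rfl, HeightOneSpectrum.valuation_of_algebraMap,
    HeightOneSpectrum.intValuation_if_neg _ hb0, ← hb, Associates.mk_pow,
    Associates.count_pow (Associates.mk_ne_zero.2 hI) (q.associates_irreducible)]

/-! ### Units -/

theorem phi_inv : (phi - 1) * phi = 1 := by
  ext <;> simp [phi, QuadraticAlgebra.re_one, QuadraticAlgebra.im_one]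

theorem isUnit_phi : IsUnit phi := IsUnit.of_mul_eq_one (phi - 1) (by rw [mul_comm]; exact phi_inv)

theorem fix_sign {B : O} (h : B ≠ 0) : ∃ η : O, IsUnit η ∧ 0 < e1 (η * B) ∧ 0 < e2 (η * B) := by
  have hg : 0 < Real.goldenRatio := Real.goldenRatio_pos
  have hg' : Real.goldenConj < 0 := Real.goldenConj_neg
  rcases lt_or_gt_of_ne (e1_ne_zero h) with h1 | h1 <;>
    rcases lt_or_gt_of_ne (e2_ne_zero h) with h2 | h2
  · refine ⟨-1, isUnit_one.neg, ?_, ?_⟩
    · rw [neg_one_mul, e1_neg]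
      linarith
    · rw [neg_one_mul, e2_neg]
      linarith
  · refine ⟨-phi, isUnit_phi.neg, ?_, ?_⟩
    · rw [e1_mul, e1_neg, e1_phi]
      nlinarith
    · rw [e2_mul, e2_neg, e2_phi]
      nlinarith
  · refine ⟨phi, isUnit_phi, ?_, ?_⟩
    · rw [e1_mul, e1_phi]
      positivity
    · rw [e2_mul, e2_phi]
      nlinarith
  · exact ⟨1, isUnit_one, by rwa [one_mul], by rwa [one_mul]⟩

theorem unit_sq (hU : UniStmt) {u : O} (hu : IsUnit u) (h1 : 0 < e1 u) (h2 : 0 < e2 u) :
    ∃ η : O, η ^ 2 * u = 1 := by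
  have hg : 0 < Real.goldenRatio := Real.goldenRatio_pos
  have hg' : Real.goldenConj < 0 := Real.goldenConj_neg
  have hodd : ∀ n : ℕ, 0 < Real.goldenConj ^ n → ∃ j, n = j + j := by
    intro n hn
    rcases Nat.even_or_odd n with he | ho
    · exact he
    · exact absurd (ho.pow_neg hg') (not_lt.2 hn.le)
  obtain ⟨n, h | h | h | h⟩ := hU u hu
  · rw [h, e2_pow, e2_phi] at h2
    obtain ⟨j, rfl⟩ := hodd n h2
    refine ⟨(phi - 1) ^ j, ?_⟩
    rw [h]
    calc ((phi - 1) ^ j) ^ 2 * phi ^ (j + j) = ((phi - 1) * phi) ^ (j + j) := by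
          rw [mul_pow, ← pow_mul, mul_two]
      _ = 1 := by rw [phi_inv, one_pow]
  · rw [h, e1_neg, e1_pow, e1_phi] at h1
    have := pow_pos hg n
    linarith
  · have h3 : e2 u * Real.goldenConj ^ n = 1 := by
      rw [← e2_phi, ← e2_pow, ← e2_mul, h, e2_one]
    have h4 : 0 < Real.goldenConj ^ n := by
      by_contra hc
      have : e2 u * Real.goldenConj ^ n ≤ 0 :=
        mul_nonpos_of_nonneg_of_nonpos h2.le (not_lt.1 hc)
      linarith
    obtain ⟨j, rfl⟩ := hodd n h4
    refine ⟨phi ^ j, ?_⟩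
    rw [← h]
    ring
  · have h3 : e1 u * Real.goldenRatio ^ n = -1 := by
      rw [← e1_phi, ← e1_pow, ← e1_mul, h, e1_neg, e1_one]
    have := mul_pos h1 (pow_pos hg n)
    linarith

/-! ### The main argument -/

theorem idl (hOkr : OkrStmt) (hUni : UniStmt) (hVal : ValStmt) (hCbe : CbeStmt)
    (hQua : QuaStmt) : IdlStmt := by
  intro k K _ _ _ _ _ f s m hk hf hK hs hm c hcs I hI hI3
  obtain ⟨_, hPID, _, _, hEuc, -⟩ := hOkr
  -- the integers
  obtain ⟨ι, hι⟩ := exists_iota k K hf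
  have hm0 : m ≠ 0 := by
    intro h
    have := hm.pos1
    rw [h, e1_zero] at this
    exact lt_irrefl _ this
  have hs0 : s ≠ 0 := by
    intro h
    rw [h, zero_pow two_ne_zero] at hs
    have h1 : algebraMap k K (ev f m) = 0 := neg_eq_zero.1 hs.symm
    exact ev_ne_zero hf hm0 ((map_eq_zero (algebraMap k K)).1 h1)
  have hsk : ∀ x : k, algebraMap k K x ≠ s := by
    intro x hx
    have h1 := c.commutes x
    rw [hx, hcs] at h1
    apply hs0
    have h2 : (2 : K) * s = 0 := by linear_combination -h1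
    rcases mul_eq_zero.1 h2 with h3 | h3
    · exact absurd h3 two_ne_zero
    · exact h3
  -- fixed elements
  have hfix : ∀ x : K, c x = x → ∃ y : k, x = algebraMap k K y := by
    intro x hx
    obtain ⟨a, b, hab⟩ := quad_span hK hsk x
    have h1 : c x = algebraMap k K a - algebraMap k K b * s := by
      rw [hab, map_add, map_mul, c.commutes, c.commutes, hcs]
      ring
    rw [hx, hab] at h1
    have h2 : algebraMap k K b * s = 0 := by
      have h3 : (2 : K) * (algebraMap k K b * s) = 0 := by linear_combination h1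
      rcases mul_eq_zero.1 h3 with h4 | h4
      · exact absurd h4 two_ne_zero
      · exact h4
    exact ⟨a, by rw [hab, h2, add_zero]⟩
  obtain ⟨c', hc's, q1, q2, q3, ⟨w, hw⟩, -⟩ := hQua k K f s m hk hf hK hs hm
  have hcc : c' = c := by
    ext x
    obtain ⟨a, b, rfl⟩ := quad_span hK hsk x
    rw [map_add, map_add, map_mul, map_mul, c.commutes, c.commutes, c'.commutes, c'.commutes,
      hcs, hc's]
  subst hcc
  have hcι : ∀ y : O, c' (ι y : K) = (ι y : K) := by
    intro y
    rw [hι, c'.commutes]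
  have hιinj : ∀ x y : O, (ι x : K) = (ι y : K) → x = y := by
    intro x y h
    rw [hι, hι] at h
    exact ev_inj hf ((algebraMap k K).injective h)
  have hι0 : ∀ x : O, x ≠ 0 → (ι x : K) ≠ 0 := by
    intro x hx h
    exact hx (hιinj x 0 (by rw [h, map_zero]; rfl))
  -- conjugation on the integers
  obtain ⟨σ, hσ⟩ : ∃ σ : 𝓞 K ≃+* 𝓞 K, ∀ x : 𝓞 K, ((σ x : 𝓞 K) : K) = c' (x : K) :=
    ⟨RingOfIntegers.mapRingEquiv c'.toRingEquiv, fun x => rfl⟩
  have hcc2 : ∀ x : K, c' (c' x) = x := by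
    intro x
    obtain ⟨a, b, rfl⟩ := quad_span hK hsk x
    simp only [map_add, map_mul, c'.commutes, hc's, map_neg, neg_neg]
  -- step 1
  obtain ⟨β₀, hβ₀⟩ := hI3
  rw [Ideal.submodule_span_eq] at hβ₀
  have hβ0 : β₀ ≠ 0 := by
    rintro rfl
    rw [Ideal.span_singleton_eq_bot.2 rfl] at hβ₀
    exact hI ((pow_eq_zero_iff three_ne_zero).1 hβ₀)
  obtain ⟨b, hb, hb1, hb2, hbn⟩ := q3 β₀
  have hβ0K : (β₀ : K) ≠ 0 := fun h => hβ0 (oext h)
  have hcβ0K : c' (β₀ : K) ≠ 0 := fun h => hβ0K ((map_eq_zero c').1 h)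
  have hb0 : b ≠ 0 := by
    rintro rfl
    rw [ev_zero, map_zero] at hb
    exact (mul_ne_zero hβ0K hcβ0K) hb
  have hcube : ∀ p : O, Prime p → 3 ∣ multiplicity p b := by
    intro p hp
    obtain ⟨q, e, he, _, hv⟩ := hVal k K f hk hf hK p hp
    have h1 := hv b hb0
    rw [← hb, map_mul] at h1
    obtain ⟨n, hn⟩ := val_cube q hβ₀ hβ0
    obtain ⟨q', -, hq'⟩ := H60.valuation_conj c'.toRingEquiv q
    obtain ⟨n', hn'⟩ := val_cube q' hβ₀ hβ0
    have h2 : q.valuation K (c' (β₀ : K)) = q'.valuation K (β₀ : K) := hq' _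
    rw [hn, h2, hn', ← WithZero.exp_add, WithZero.exp_inj] at h1
    rcases he with rfl | rfl <;> omega
  obtain ⟨u₀, B₀, hu₀, hbB⟩ := hCbe b hb0 hcube
  have hB₀ : B₀ ≠ 0 := by
    rintro rfl
    rw [zero_pow three_ne_zero, mul_zero] at hbB
    exact hb0 hbB
  obtain ⟨η, hη, hB1, hB2⟩ := fix_sign hB₀
  obtain ⟨B, hBdef⟩ : ∃ B, B = η * B₀ := ⟨_, rfl⟩
  rw [← hBdef] at hB1 hB2
  obtain ⟨η', hη'⟩ := hη.exists_left_inv
  have hη'u : IsUnit η' := IsUnit.of_mul_eq_one η hη'
  obtain ⟨u₁, hu₁def⟩ : ∃ u₁, u₁ = u₀ * η' ^ 3 := ⟨_, rfl⟩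
  have hbB1 : b = u₁ * B ^ 3 := by
    rw [hu₁def, hBdef, hbB]
    calc u₀ * B₀ ^ 3 = u₀ * ((η' * η) ^ 3 * B₀ ^ 3) := by rw [hη', one_pow, one_mul]
      _ = u₀ * η' ^ 3 * (η * B₀) ^ 3 := by ring
  have hu₁ : IsUnit u₁ := by
    rw [hu₁def]
    exact hu₀.mul (hη'u.pow 3)
  have hb1' : 0 < e1 b := lt_of_le_of_ne hb1 (Ne.symm (e1_ne_zero hb0))
  have hb2' : 0 < e2 b := lt_of_le_of_ne hb2 (Ne.symm (e2_ne_zero hb0))
  have hu1 : 0 < e1 u₁ := by
    rw [hbB1, e1_mul, e1_pow] at hb1'
    exact (mul_pos_iff_of_pos_right (pow_pos hB1 3)).1 hb1'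
  have hu2 : 0 < e2 u₁ := by
    rw [hbB1, e2_mul, e2_pow] at hb2'
    exact (mul_pos_iff_of_pos_right (pow_pos hB2 3)).1 hb2'
  obtain ⟨θ, hθ⟩ := unit_sq hUni hu₁ hu1 hu2
  have hθu : IsUnit θ := IsUnit.of_mul_eq_one (θ * u₁) (by rw [← hθ]; ring)
  obtain ⟨β, hβdef⟩ : ∃ β, β = β₀ * ι θ := ⟨_, rfl⟩
  have hβ : I ^ 3 = Ideal.span {β} := by
    rw [hβ₀, hβdef]
    exact (Ideal.span_singleton_mul_right_unit (hθu.map ι) β₀).symm
  have hβc : (β : K) * c' β = (ι B : K) ^ 3 := by
    rw [hβdef]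
    simp only [cadd, csub, cmul, cneg, cpow, czero, cone]
    rw [map_mul, hcι]
    calc (β₀ : K) * (ι θ : K) * (c' (β₀ : K) * (ι θ : K))
        = ((β₀ : K) * c' (β₀ : K)) * (ι θ : K) ^ 2 := by ring
      _ = (ι b : K) * (ι θ : K) ^ 2 := by rw [hb, hι b]
      _ = (ι (u₁ * B ^ 3) : K) * (ι θ : K) ^ 2 := by rw [← hbB1]
      _ = (ι (θ ^ 2 * u₁) : K) * (ι B : K) ^ 3 := by
          rw [map_mul, map_mul, map_pow, map_pow]
          simp only [cadd, csub, cmul, cneg, cpow, czero, cone]
          ring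
      _ = _ := by
          rw [hθ, map_one]
          simp only [cadd, csub, cmul, cneg, cpow, czero, cone]
          ring
  have hB0 : B ≠ 0 := by
    rintro rfl
    rw [e1_zero] at hB1
    exact lt_irrefl _ hB1
  have hβ1 : β ≠ 0 := by
    rw [hβdef]
    exact mul_ne_zero hβ0 ((hθu.map ι).ne_zero)
  -- norm of `B`
  have hnB : (nm B : ℤ) = (Ideal.absNorm I : ℕ) := by
    have h1 : nm u₁ = 1 := by
      have h2 : (0 : ℝ) < nm u₁ := by
        rw [nm_eq]
        exact mul_pos hu1 hu2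
      have h3 : 0 < nm u₁ := by exact_mod_cast h2
      rcases isUnit_iff_nm.1 hu₁ with h | h
      · exact h
      · omega
    have h2 : nm b = nm B ^ 3 := by rw [hbB1, nm_mul, nm_pow, h1, one_mul]
    rw [h2, ← hβ₀, map_pow] at hbn
    push_cast at hbn
    have h3 : Odd 3 := by decide
    exact h3.strictMono_pow.injective hbn
  -- step 6 : the minimal element
  have hex : ∃ n : ℕ, ∃ u ∈ I, u ≠ 0 ∧ Ideal.absNorm (Ideal.span {u}) = n := by
    obtain ⟨x, hx, hx0⟩ := Submodule.exists_mem_ne_zero_of_ne_bot hI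
    exact ⟨_, x, hx, hx0, rfl⟩
  classical
  obtain ⟨u, huI, hu0, hun⟩ := Nat.find_spec hex
  have hmin : ∀ x ∈ I, x ≠ 0 → Ideal.absNorm (Ideal.span {u}) ≤ Ideal.absNorm (Ideal.span {x}) := by
    intro x hx hx0
    rw [hun]
    exact Nat.find_min' hex ⟨x, hx, hx0, rfl⟩
  have hu0K : (u : K) ≠ 0 := fun h => hu0 (oext h)
  have hcu0K : c' (u : K) ≠ 0 := fun h => hu0K ((map_eq_zero c').1 h)
  -- the ideal `J`
  obtain ⟨J, hJ⟩ : ∃ J : Ideal O, ∀ y : O, y ∈ J ↔
      ∃ v ∈ I, (u : K) * c' v - (v : K) * c' u = (ι y : K) * s := by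
    refine ⟨{ carrier := {y | ∃ v ∈ I, (u : K) * c' v - (v : K) * c' u = (ι y : K) * s}
              add_mem' := ?_, zero_mem' := ?_, smul_mem' := ?_ }, fun y => Iff.rfl⟩
    · rintro y y' ⟨v, hv, h⟩ ⟨v', hv', h'⟩
      refine ⟨v + v', I.add_mem hv hv', ?_⟩
      rw [map_add]
      simp only [cadd, csub, cmul, cneg, cpow, czero, cone]
      rw [map_add]
      linear_combination h + h'
    · refine ⟨0, I.zero_mem, ?_⟩
      rw [map_zero]
      simp only [cadd, csub, cmul, cneg, cpow, czero, cone]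
      rw [map_zero]
      ring
    · rintro t y ⟨v, hv, h⟩
      refine ⟨ι t * v, I.mul_mem_left _ hv, ?_⟩
      rw [smul_eq_mul, map_mul]
      simp only [cadd, csub, cmul, cneg, cpow, czero, cone]
      rw [map_mul, hcι]
      linear_combination (ι t : K) * h
  obtain ⟨dl, hdl⟩ := (hPID.principal J).principal
  rw [Ideal.submodule_span_eq] at hdl
  obtain ⟨v, hvI, hv⟩ := (hJ dl).1 (by rw [hdl]; exact Ideal.mem_span_singleton_self dl)
  -- `dl ≠ 0`
  obtain ⟨nu, hnu, -, -, hnun⟩ := q3 u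
  have hnu0 : nu ≠ 0 := by
    rintro rfl
    rw [ev_zero, map_zero] at hnu
    exact (mul_ne_zero hu0K hcu0K) hnu
  have hdl0 : dl ≠ 0 := by
    rintro rfl
    have h1 : -nu ∈ J := by
      refine (hJ _).2 ⟨w * u, I.mul_mem_left _ huI, ?_⟩
      simp only [cadd, csub, cmul, cneg, cpow, czero, cone]
      rw [map_mul, map_neg]
      simp only [cadd, csub, cmul, cneg, cpow, czero, cone]
      rw [hι, ← hnu]
      linear_combination (-((u : K) * c' (u : K))) * hw
    rw [hdl, Ideal.span_singleton_eq_bot.2 rfl, Ideal.mem_bot] at h1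
    exact hnu0 (neg_eq_zero.1 h1)
  have habs : ∀ y : O, (Ideal.absNorm (Ideal.span {ι y}) : ℤ) = nm y ^ 2 := by
    intro y
    obtain ⟨y', hy', -, -, hy'n⟩ := q3 (ι y)
    rw [hcι] at hy'
    have h1 : y' = y ^ 2 := by
      apply hιinj
      rw [hι y', ← hy', map_pow]
      simp only [cadd, csub, cmul, cneg, cpow, czero, cone]
      ring
    rw [← hy'n, h1, nm_pow]
  -- step 8 : the span
  have hspan : ∀ x ∈ I, ∃ p q : O, (x : K) = (ι p : K) * u + (ι q : K) * v := by
    intro x hx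
    obtain ⟨y, hy⟩ := q2 ⟨(u : K) * c' x, by
      have := (u * σ x).2
      rw [← hσ]
      exact this⟩
    have hy' : (u : K) * c' x - (x : K) * c' u = (ι y : K) * s := by
      rw [hι]
      have h2 : (u : K) * c' x - c' ((u : K) * c' x) = algebraMap k K (ev f y) * s := hy
      rw [map_mul, hcc2] at h2
      rw [← h2]
      ring
    have hyJ : y ∈ J := (hJ y).2 ⟨x, hx, hy'⟩
    rw [hdl, Ideal.mem_span_singleton] at hyJ
    obtain ⟨q, rfl⟩ := hyJ
    obtain ⟨x', hx'⟩ : ∃ x', x' = x - ι q * v := ⟨_, rfl⟩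
    have hx'I : x' ∈ I := by
      rw [hx']
      exact I.sub_mem hx (I.mul_mem_left _ hvI)
    have hx'K : (x' : K) = (x : K) - (ι q : K) * v := by
      rw [hx']
      simp only [cadd, csub, cmul, cneg, cpow, czero, cone]
    have h0 : (u : K) * c' x' - (x' : K) * c' u = 0 := by
      rw [hx'K, map_sub, map_mul, hcι]
      rw [map_mul] at hy'
      simp only [cadd, csub, cmul, cneg, cpow, czero, cone] at hy'
      linear_combination hy' - (ι q : K) * hv
    have hlam : c' ((x' : K) / u) = (x' : K) / u := by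
      rw [map_div₀, div_eq_div_iff hcu0K hu0K]
      linear_combination h0
    obtain ⟨lam, hlam'⟩ := hfix _ hlam
    obtain ⟨a, b', hb'0, hab⟩ := exists_frac hk hf lam
    obtain ⟨q', hq'⟩ := hEuc a b' hb'0
    obtain ⟨x'', hx''⟩ : ∃ x'', x'' = x' - ι q' * u := ⟨_, rfl⟩
    have hx''I : x'' ∈ I := by
      rw [hx'']
      exact I.sub_mem hx'I (I.mul_mem_left _ huI)
    have hx''K : (x'' : K) = (x' : K) - (ι q' : K) * u := by
      rw [hx'']
      simp only [cadd, csub, cmul, cneg, cpow, czero, cone]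
    have hrel : ι b' * x'' = ι (a - b' * q') * u := by
      apply oext
      rw [map_sub, map_mul]
      simp only [cadd, csub, cmul, cneg, cpow, czero, cone]
      rw [hx''K]
      have h3 : (x' : K) = algebraMap k K lam * u := by
        rw [← hlam']
        field_simp
      have h4 : (ι b' : K) * algebraMap k K lam = (ι a : K) := by
        rw [hι, hι, ← map_mul, hab]
      rw [h3]
      linear_combination (u : K) * h4
    have hx''0 : x'' = 0 := by
      by_contra hne
      have h5 := hmin x'' hx''I hne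
      have h6 := congrArg (fun t : 𝓞 K => (Ideal.absNorm (Ideal.span {t}) : ℤ)) hrel
      simp only [← Ideal.span_singleton_mul_span_singleton, map_mul] at h6
      push_cast at h6
      rw [habs, habs] at h6
      have h7 : nm (a - b' * q') ^ 2 < nm b' ^ 2 := sq_lt_sq.2 hq'
      have h8 : (0 : ℤ) < (Ideal.absNorm (Ideal.span {u}) : ℕ) := by
        rw [← hnun]
        have h9 : nm nu ≠ 0 := nm_ne_zero hnu0
        have h10 : (0 : ℤ) ≤ nm nu := by
          rw [hnun]
          positivity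
        omega
      have h5' : ((Ideal.absNorm (Ideal.span {u}) : ℕ) : ℤ) ≤
          ((Ideal.absNorm (Ideal.span {x''}) : ℕ) : ℤ) := by exact_mod_cast h5
      nlinarith [sq_nonneg (nm b')]
    refine ⟨q', q, ?_⟩
    rw [hx''0] at hx''K
    have h9 : ((0 : 𝓞 K) : K) = 0 := rfl
    rw [h9, hx'K] at hx''K
    linear_combination -hx''K
  -- step 9 : `B ∣ dl`
  have hBdvd : ∀ x ∈ I, ∀ y ∈ I, ∃ z : 𝓞 K, (x : K) * c' y = (ι B : K) * z := by
    intro x hx y hy
    have hx3 : ∃ g : 𝓞 K, x ^ 3 = β * g := by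
      have : x ^ 3 ∈ Ideal.span {β} := by
        rw [← hβ]
        exact Ideal.pow_mem_pow hx 3
      obtain ⟨g, hg⟩ := Ideal.mem_span_singleton.1 this
      exact ⟨g, hg⟩
    have hy3 : ∃ g : 𝓞 K, y ^ 3 = β * g := by
      have : y ^ 3 ∈ Ideal.span {β} := by
        rw [← hβ]
        exact Ideal.pow_mem_pow hy 3
      obtain ⟨g, hg⟩ := Ideal.mem_span_singleton.1 this
      exact ⟨g, hg⟩
    obtain ⟨g, hg⟩ := hx3
    obtain ⟨g', hg'⟩ := hy3
    have hgK : (x : K) ^ 3 = (β : K) * g := by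
      have := congrArg (fun t : 𝓞 K => (t : K)) hg
      simp only [cadd, csub, cmul, cneg, cpow, czero, cone] at this
      exact this
    have hgK' : (c' (y : K)) ^ 3 = c' (β : K) * (σ g' : K) := by
      have := congrArg (fun t : 𝓞 K => c' (t : K)) hg'
      simp only [cadd, csub, cmul, cneg, cpow, czero, cone] at this
      rw [map_pow, map_mul] at this
      rw [this, hσ]
    have hBK : (ι B : K) ≠ 0 := hι0 B hB0
    have hint : IsIntegral ℤ ((x : K) * c' y / (ι B : K)) := by
      refine IsIntegral.of_pow (n := 3) (by norm_num) ?_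
      have h3 : ((x : K) * c' y / (ι B : K)) ^ 3 = ((g * σ g' : 𝓞 K) : K) := by
        rw [div_pow, mul_pow, hgK, hgK', ← hβc]
        simp only [cadd, csub, cmul, cneg, cpow, czero, cone]
        have h1 : (β : K) ≠ 0 := fun h => hβ1 (oext h)
        have h2 : c' (β : K) ≠ 0 := fun h => h1 ((map_eq_zero c').1 h)
        field_simp
      rw [h3]
      exact RingOfIntegers.isIntegral_coe _
    refine ⟨⟨_, hint⟩, ?_⟩
    show (x : K) * c' y = (ι B : K) * ((x : K) * c' y / (ι B : K))
    field_simp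
  have hB1' : B ∣ dl := by
    obtain ⟨z, hz⟩ := hBdvd u huI v hvI
    obtain ⟨y, hy⟩ := q2 z
    refine ⟨y, ?_⟩
    apply hιinj
    rw [map_mul]
    simp only [cadd, csub, cmul, cneg, cpow, czero, cone]
    have h1 : (ι dl : K) * s = (ι B : K) * (ι y : K) * s := by
      have h2 : (v : K) * c' u = (ι B : K) * c' z := by
        have := congrArg c' hz
        rw [map_mul, map_mul, hcι, hcc2] at this
        rw [← this]
        ring
      rw [← hv, hz, h2, hι y]
      linear_combination (ι B : K) * hy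
    exact mul_right_cancel₀ hs0 h1
  -- `dl ∣ B`
  obtain ⟨T, hT⟩ : ∃ T : Ideal (𝓞 K), ∀ z : 𝓞 K, z ∈ T ↔ ∀ r : 𝓞 K, ∃ t : O,
      (r : K) * z - c' ((r : K) * z) = (ι dl : K) * (ι t : K) * s := by
    refine ⟨{ carrier := {z | ∀ r : 𝓞 K, ∃ t : O,
                (r : K) * z - c' ((r : K) * z) = (ι dl : K) * (ι t : K) * s}
              add_mem' := ?_, zero_mem' := ?_, smul_mem' := ?_ }, fun y => Iff.rfl⟩
    · intro z z' h h' r
      obtain ⟨t, ht⟩ := h r
      obtain ⟨t', ht'⟩ := h' r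
      refine ⟨t + t', ?_⟩
      rw [map_add]
      simp only [cadd, csub, cmul, cneg, cpow, czero, cone]
      rw [mul_add, map_add]
      linear_combination ht + ht'
    · intro r
      refine ⟨0, ?_⟩
      have h9 : ((0 : 𝓞 K) : K) = 0 := rfl
      rw [map_zero, h9, mul_zero, map_zero]
      ring
    · intro a z h r
      obtain ⟨t, ht⟩ := h (r * a)
      refine ⟨t, ?_⟩
      rw [smul_eq_mul]
      simp only [cadd, csub, cmul, cneg, cpow, czero, cone] at ht ⊢
      rw [← mul_assoc]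
      exact ht
  have hD : ∀ x ∈ I, ∀ y ∈ I, ∃ t : O,
      (x : K) * c' y - (y : K) * c' x = (ι dl : K) * (ι t : K) * s := by
    intro x hx y hy
    obtain ⟨p, q, h1⟩ := hspan x hx
    obtain ⟨p', q', h2⟩ := hspan y hy
    refine ⟨p * q' - q * p', ?_⟩
    rw [h1, h2, map_add, map_add, map_mul, map_mul, map_mul, map_mul, hcι, hcι, hcι, hcι,
      map_sub, map_mul, map_mul]
    simp only [cadd, csub, cmul, cneg, cpow, czero, cone]
    linear_combination ((ι p : K) * (ι q' : K) - (ι q : K) * (ι p' : K)) * hv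
  have hIcI : I * I.map σ ≤ T := by
    rw [Ideal.mul_le]
    intro x hx z hz
    have hz2 : ∃ y ∈ I, σ y = z := by
      rw [Ideal.mem_map_of_equiv] at hz
      exact hz
    obtain ⟨y, hy, rfl⟩ := hz2
    rw [hT]
    intro r
    obtain ⟨t, ht⟩ := hD (r * x) (I.mul_mem_left _ hx) y hy
    refine ⟨t, ?_⟩
    rw [← ht]
    simp only [cadd, csub, cmul, cneg, cpow, czero, cone]
    rw [hσ, map_mul, map_mul, hcc2, map_mul]
    ring
  have hBmem : ι B ∈ I * I.map σ := by
    have h1 : I * I.map σ = Ideal.span {ι B} := by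
      have hmap0 : I.map σ ≠ ⊥ := by
        intro h
        rw [Ideal.map_eq_bot_iff_of_injective σ.injective] at h
        exact hI h
      refine ideal_pow_inj (mul_ne_zero hI hmap0) ?_ ?_
      · rw [Ne, Ideal.span_singleton_eq_bot]
        intro h
        exact hι0 B hB0 (by rw [h]; rfl)
      · rw [mul_pow, ← Ideal.map_pow, hβ, Ideal.map_span, Set.image_singleton,
          Ideal.span_singleton_mul_span_singleton, Ideal.span_singleton_pow]
        congr 2
        apply oext
        simp only [cadd, csub, cmul, cneg, cpow, czero, cone]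
        rw [← hβc]
        have := hσ β
        exact congrArg (fun t => (β : K) * t) this
    rw [h1]
    exact Ideal.mem_span_singleton_self _
  have hB2' : dl ∣ B := by
    obtain ⟨t, ht⟩ := (hT _).1 (hIcI hBmem) w
    refine ⟨t, ?_⟩
    apply hιinj
    rw [map_mul]
    simp only [cadd, csub, cmul, cneg, cpow, czero, cone]
    refine mul_right_cancel₀ hs0 ?_
    rw [← ht, map_mul, hcι]
    linear_combination (-(ι B : K)) * hw
  -- the end
  obtain ⟨ε, hε⟩ := associated_of_dvd_dvd hB2' hB1'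
  refine ⟨β, u, ι ε * v, B, hβ, hB1, hB2, ?_, huI, I.mul_mem_left _ hvI, hu0, ?_, ?_, hmin, hnB⟩
  · rw [hβc, hι]
  · intro x hx
    obtain ⟨p, q, h⟩ := hspan x hx
    refine ⟨p, q * ((ε⁻¹ : Oˣ) : O), ?_⟩
    rw [← hι, ← hι, h, map_mul]
    simp only [cadd, csub, cmul, cneg, cpow, czero, cone]
    have h1 : (ι ((ε⁻¹ : Oˣ) : O) : K) * (ι (ε : O) : K) = 1 := by
      have : ι ((ε⁻¹ : Oˣ) : O) * ι (ε : O) = 1 := by
        rw [← map_mul, Units.inv_mul, map_one]
      have h2 := congrArg (fun t : 𝓞 K => (t : K)) this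
      simp only [cadd, csub, cmul, cneg, cpow, czero, cone] at h2
      exact h2
    linear_combination (-(ι q : K) * v) * h1
  · rw [← hι, ← hε, map_mul]
    simp only [cadd, csub, cmul, cneg, cpow, czero, cone]
    rw [map_mul, hcι]
    linear_combination (ι (ε : O) : K) * hv

end Pool.Agent.Leo4.H43
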